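import Pool.Agent.Y516.OJ.Stm

/-! (GAP) Bernoulli's inequality with a gap, and (NORM) the lower bound for the norm. -/

set_option autoImplicit false

namespace Pool.Agent.Y317.OJ

open Finset Pool.Agent.Y516.OJ

/-- `t ^ (1 + d) ≥ t - d / 2`. -/
theorem sub_le_rpow (t d : ℝ) (ht : 0 ≤ t) (hd : 0 < d) : t - d / 2 ≤ t ^ (1 + d) := by
  rcases ht.eq_or_lt with rfl | ht
  · rw [Real.zero_rpow (by linarith)]
    linarith
  rw [Real.rpow_add ht, Real.rpow_one]
  have h1 : 1 + d * Real.log t ≤ t ^ d := by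
    rw [Real.rpow_def_of_pos ht]
    have := Real.add_one_le_exp (Real.log t * d)
    linarith
  have hs : 0 < √t := Real.sqrt_pos.2 ht
  have hst : √t * √t = t := Real.mul_self_sqrt ht.le
  have h2 : Real.log t = 2 * Real.log (√t) := by
    rw [Real.log_sqrt ht.le]
    ring
  have h3 : 1 - (√t)⁻¹ ≤ Real.log (√t) := Real.one_sub_inv_le_log_of_pos hs
  have h4 : -(1 / 2) ≤ t * Real.log t := by
    have h5 : t * (2 * (1 - (√t)⁻¹)) ≤ t * Real.log t := by
      rw [h2]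
      exact mul_le_mul_of_nonneg_left (by linarith) ht.le
    have h6 : t * (2 * (1 - (√t)⁻¹)) = 2 * (√t * √t) - 2 * √t := by
      rw [hst]
      have : t * (√t)⁻¹ = √t := by
        rw [← div_eq_mul_inv, Real.div_sqrt]
      linear_combination (-2) * this
    nlinarith [sq_nonneg (2 * √t - 1)]
  have h7 : t * (1 + d * Real.log t) ≤ t * t ^ d := mul_le_mul_of_nonneg_left h1 ht.le
  nlinarith [mul_le_mul_of_nonneg_left h4 hd.le]

theorem gap : GapStm := by
  intro t d ht hd hd1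
  constructor
  · have := one_add_mul_self_le_rpow_one_add (s := t - 1) (by linarith) (p := 1 + d) (by linarith)
    rwa [add_sub_cancel] at this
  · intro h
    have := sub_le_rpow t d ht hd
    nlinarith [mul_le_mul_of_nonneg_left h hd.le]

/-- One event. -/
theorem one_event {A : Type} (P f : A → ℝ) (d : ℝ) (E : Finset A) (hP : ∀ a, 0 ≤ P a)
    (hf : ∀ a, 0 ≤ f a) (hd : 0 < d) (hd1 : d ≤ 1) (hE : 0 < ∑ a ∈ E, P a)
    (hm : ∑ a ∈ E, P a * f a ≤ (∑ a ∈ E, P a) / 4) :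
    ∑ a ∈ E, P a * (1 + (1 + d) * (f a - 1)) + d / 4 * ∑ a ∈ E, P a ≤
      ∑ a ∈ E, P a * f a ^ (1 + d) := by
  set p := ∑ a ∈ E, P a with hp
  set t := (∑ a ∈ E, P a * f a) / p with ht
  have htp : p * t = ∑ a ∈ E, P a * f a := by
    rw [ht, mul_div_cancel₀ _ hE.ne']
  have ht0 : 0 ≤ t := div_nonneg (sum_nonneg fun a _ => mul_nonneg (hP a) (hf a)) hE.le
  have ht4 : t ≤ 1 / 4 := by
    rw [ht, div_le_iff₀ hE]
    linarith
  have hj := Real.rpow_arith_mean_le_arith_mean_rpow E (fun a => P a / p) f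
    (fun a _ => div_nonneg (hP a) hE.le) (by rw [← sum_div, ← hp, div_self hE.ne'])
    (fun a _ => hf a) (p := 1 + d) (by linarith)
  have h1 : ∑ a ∈ E, P a / p * f a = t := by
    rw [ht, sum_div]
    exact sum_congr rfl fun a _ => by ring
  have h2 : ∑ a ∈ E, P a / p * f a ^ (1 + d) = (∑ a ∈ E, P a * f a ^ (1 + d)) / p := by
    rw [sum_div]
    exact sum_congr rfl fun a _ => by ring
  rw [h1, h2, le_div_iff₀ hE] at hj
  have h3 := (gap t d ht0 hd hd1).2 ht4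
  have h4 : ∑ a ∈ E, P a * (1 + (1 + d) * (f a - 1)) = p * (1 + (1 + d) * (t - 1)) := by
    have : ∀ a ∈ E, P a * (1 + (1 + d) * (f a - 1)) = (1 + d) * (P a * f a) + (- d) * P a :=
      fun a _ => by ring
    rw [sum_congr rfl this, sum_add_distrib, ← mul_sum, ← mul_sum, ← htp, ← hp]
    ring
  rw [h4]
  nlinarith [mul_le_mul_of_nonneg_right h3 hE.le]

theorem nrm : NormStm := by
  intro A I _ _ _ P f d π₀ bad ev hP hP1 hf hPf hd hd1 hπ hdis hev hsm
  classical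
  set U := bad.biUnion ev with hU
  have hsplit : ∀ g : A → ℝ, ∑ a, g a = ∑ i ∈ bad, ∑ a ∈ ev i, g a + ∑ a ∈ Uᶜ, g a := by
    intro g
    rw [← sum_biUnion (fun i hi j hj hij => hdis i hi j hj hij), ← hU]
    exact (sum_add_sum_compl U g).symm
  have hmass : ∑ i ∈ bad, ∑ a ∈ ev i, P a ≤ 1 := by
    rw [← hP1, hsplit P]
    have : 0 ≤ ∑ a ∈ Uᶜ, P a := sum_nonneg fun a _ => hP a
    linarith
  have hlow : π₀ * bad.card ≤ ∑ i ∈ bad, ∑ a ∈ ev i, P a := by
    have := sum_le_sum hev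
    rw [sum_const, nsmul_eq_mul] at this
    linarith
  have hX : 1 + d * π₀ * bad.card / 4 ≤ ∑ a, P a * f a ^ (1 + d) := by
    have h1 : ∑ a, P a * (1 + (1 + d) * (f a - 1)) = 1 := by
      have : ∀ a ∈ (univ : Finset A),
          P a * (1 + (1 + d) * (f a - 1)) = (1 + d) * (P a * f a) + (- d) * P a :=
        fun a _ => by ring
      rw [sum_congr rfl this, sum_add_distrib, ← mul_sum, ← mul_sum, hPf, hP1]
      ring
    have h2 : ∑ i ∈ bad, (∑ a ∈ ev i, P a * (1 + (1 + d) * (f a - 1)) +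
        d / 4 * ∑ a ∈ ev i, P a) ≤ ∑ i ∈ bad, ∑ a ∈ ev i, P a * f a ^ (1 + d) :=
      sum_le_sum fun i hi => one_event P f d (ev i) hP hf hd hd1
        (lt_of_lt_of_le hπ (hev i hi)) (hsm i hi)
    have h3 : ∑ a ∈ Uᶜ, P a * (1 + (1 + d) * (f a - 1)) ≤ ∑ a ∈ Uᶜ, P a * f a ^ (1 + d) :=
      sum_le_sum fun a _ => mul_le_mul_of_nonneg_left (gap (f a) d (hf a) hd hd1).1 (hP a)
    rw [sum_add_distrib, ← mul_sum] at h2
    rw [hsplit] at h1
    rw [hsplit]
    nlinarith [mul_le_mul_of_nonneg_left hlow (by positivity : (0 : ℝ) ≤ d / 4)]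
  set y := d * π₀ * bad.card / 4 with hy
  have hn : (0 : ℝ) ≤ bad.card := Nat.cast_nonneg _
  have hy0 : 0 ≤ y := by positivity
  have hy1 : y ≤ 3 := by
    have h1 : d * (π₀ * bad.card) ≤ 1 * 1 :=
      mul_le_mul hd1 (hlow.trans hmass) (by positivity) zero_le_one
    rw [hy]
    nlinarith
  have h1 : (1 + y) ^ (1 / (1 + d)) ≤ (∑ a, P a * f a ^ (1 + d)) ^ (1 / (1 + d)) :=
    Real.rpow_le_rpow (by linarith) hX (by positivity)
  have h2 : (1 + y) ^ (1 / 2 : ℝ) ≤ (1 + y) ^ (1 / (1 + d)) :=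
    Real.rpow_le_rpow_of_exponent_le (by linarith)
      (one_div_le_one_div_of_le (by linarith) (by linarith))
  have h3 : 1 + y / 3 ≤ (1 + y) ^ (1 / 2 : ℝ) := by
    rw [← Real.sqrt_eq_rpow]
    apply Real.le_sqrt_of_sq_le
    nlinarith
  calc 1 + d * π₀ * bad.card / 12 = 1 + y / 3 := by rw [hy]; ring
    _ ≤ _ := h3.trans (h2.trans h1)

end Pool.Agent.Y317.OJ
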